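import Pool.Agent.helper69.GR2B.Spec

/-!
# Project gb: (MP_af9036_an), module BAB: the comparison of the two cells
-/

set_option autoImplicit false

open Complex Metric Set Filter Topology MeasureTheory
open MPS (om)
open PPS (pre TT fd)
open XPS (Df er dens tau)
open Pool.Agent.helper16.Multibrot

noncomputable section

namespace GR

theorem BAB_aem (n : ℕ) (c : ℂ) (p q : ℕ) (G : ℕ → ℂ → ℂ) (r : ℝ) (hBm : Measurable (B n c p q))
    (hT : Tow n c p q G) (hr : r ≤ R n c q) (k : ℕ) (hk : k < p) :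
    AEMeasurable (tau (B n c p q) G k) (volume.restrict (ball (0 : ℂ) r)) := by
  have h1 : ContinuousOn (G k) (ball (0 : ℂ) r) :=
    ((hT.diff k hk).mono (ball_subset_ball hr)).continuousOn
  have h2 : AEMeasurable (G k) (volume.restrict (ball (0 : ℂ) r)) :=
    h1.aemeasurable measurableSet_ball
  have h3 : AEMeasurable (fun w => B n c p q (G k w)) (volume.restrict (ball (0 : ℂ) r)) :=
    hBm.comp_aemeasurable h2
  have h4 : Measurable (deriv (G k)) := measurable_deriv _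
  exact (h4.pow_const 2).aemeasurable.mul h3

theorem BAB (hBOF : BOF_stmt) (hBLC : BLC_stmt) (hBSY : BSY_stmt) (hBPA : BPA_stmt)
    (hBRQ : BRQ_stmt) (hBCS : BCS_stmt) (hCHP : CHP_stmt) (hNAT : NAT_stmt) : BAB_stmt := by
  intro C c p q G E m m' N ρ M ν F hC hR hT hX hBm hDf her hE hE0 hm hm' hN hρ0 hρC hρX hM hν hτν
    hFd hFa hF
  obtain ⟨-, -, -, -, -, -, -, -, -, -, hRR⟩ := hNAT 2 c le_rfl
  obtain ⟨hR0, hR2, hX1, hRX, hAne, -, -⟩ := hRR p q hR
  have hC1 : 1 ≤ C := hC.1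
  have hC0 : 0 < C := by linarith
  have hp1 : 1 ≤ p := by have := hR.q1; have := hR.qp; omega
  have hAp : A 2 c p ≠ 0 := hAne p hp1 (by omega)
  have hAp0 : 0 < ‖A 2 c p‖ := norm_pos_iff.2 hAp
  have hn1 : (1 : ℝ) ≤ N := by exact_mod_cast hN
  have hn2 : (1 : ℝ) ≤ (N : ℝ) ^ 2 := by nlinarith
  have hn4 : (N : ℝ) ^ 2 ≤ (N : ℝ) ^ 4 := by nlinarith
  obtain ⟨S, hS⟩ : ∃ S, S = R 2 c q := ⟨_, rfl⟩
  have hsg : sg C 2 c p q = S / (16 * C ^ 2 * ‖A 2 c p‖) := by rw [hS]; rfl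
  rw [← hS] at hR0 hR2 hRX hν hτν hFd hF
  obtain ⟨a, ha⟩ : ∃ a, a = Z 2 c p := ⟨_, rfl⟩
  rw [← ha] at hFd hFa hF hRX
  obtain ⟨n2, hn2'⟩ : ∃ n2 : ℝ, n2 = (N : ℝ) ^ 2 := ⟨_, rfl⟩
  have hρS : 0 < ρ * S := by positivity
  have hn20 : 0 < n2 := by rw [hn2']; positivity
  -- the size of `a`
  have haS : ‖a‖ * (10 ^ 12 * n2) ≤ ρ * S := by
    rw [hRX, hn2']
    nlinarith [norm_nonneg a]
  have hC16 : ρ * S ≤ S / (16 * C) := by
    calc ρ * S ≤ 1 / (16 * C) * S := mul_le_mul_of_nonneg_right hρC hR0.le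
      _ = S / (16 * C) := by ring
  obtain ⟨r, hr⟩ : ∃ r : ℝ, r = 49 / 50 * (ρ * S) := ⟨_, rfl⟩
  have hr0 : 0 < r := by rw [hr]; positivity
  have hr16 : r ≤ S / (16 * C) := by rw [hr]; linarith
  have hρ1 : ρ ≤ 1 := by
    refine hρC.trans ?_
    rw [div_le_one (by positivity)]
    linarith
  have hFa2 : ‖F a‖ ≤ 2 := by
    have : ‖F a‖ ≤ ‖F a - 1‖ + ‖(1 : ℂ)‖ := by
      have := norm_add_le (F a - 1) 1
      rwa [sub_add_cancel] at this
    rw [norm_one] at this
    linarith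
  have hFa1 : 1 / 2 ≤ ‖F a‖ := by
    have h1 : ‖(1 : ℂ)‖ ≤ ‖F a‖ + ‖F a - 1‖ := by
      calc ‖(1 : ℂ)‖ = ‖F a - (F a - 1)‖ := by ring_nf
        _ ≤ _ := norm_sub_le _ _
    rw [norm_one] at h1
    linarith
  have hsgle : sg C 2 c p q ≤ S / ‖A 2 c p‖ := by
    rw [hsg]
    apply div_le_div_of_nonneg_left hR0.le hAp0
    have h1 : 1 ≤ 16 * C ^ 2 := by nlinarith
    calc ‖A 2 c p‖ = 1 * ‖A 2 c p‖ := (one_mul _).symm
      _ ≤ 16 * C ^ 2 * ‖A 2 c p‖ := mul_le_mul_of_nonneg_right h1 hAp0.le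
  have hsg0 : 0 < sg C 2 c p q := by
    rw [hsg]
    positivity
  have hρ2 : ρ ^ 4 ≤ ρ ^ 2 := pow_le_pow_of_le_one hρ0.le hρ1 (by norm_num)
  have hρ3 : ρ ^ 4 ≤ ρ := by
    have := pow_le_pow_of_le_one hρ0.le hρ1 (show 1 ≤ 4 by norm_num)
    rwa [pow_one] at this
  rcases hBOF F a r M N hr0 hN (hFd.mono (ball_subset_ball hr16))
    (fun w hw => ⟨(hF w (ball_subset_ball hr16 hw)).1, (hF w (ball_subset_ball hr16 hw)).2.1⟩)
    hFa1 hM with hA | ⟨w₀, τ, hw1, hw2, hτ, hw⟩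
  · -- case A
    obtain ⟨L, hL⟩ : ∃ L : ℝ, L = 6000000 * (N : ℝ) ^ 2 + 1 := ⟨_, rfl⟩
    have hL0 : 0 ≤ L := by rw [hL]; positivity
    obtain ⟨rA, hrA⟩ : ∃ rA : ℝ, rA = 7 / 10 * r := ⟨_, rfl⟩
    have hrA0 : 0 < rA := by rw [hrA]; positivity
    obtain ⟨ρA, hρA⟩ : ∃ ρA : ℝ, ρA = rA / (512 * (2 + L)) := ⟨_, rfl⟩
    have hρA0 : 0 < ρA := by rw [hρA]; positivity
    have hsubA : ball a rA ⊆ ball a (S / (16 * C)) := ball_subset_ball (by rw [hrA]; linarith)
    have hρAlow : ρ * S ≤ 5 * 10 ^ 9 * n2 * ρA := by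
      rw [hρA, hrA, hr, hL, ← hn2', ← mul_div_assoc, le_div_iff₀ (by positivity)]
      rw [← hn2'] at hn2
      nlinarith
    have hρAle : ρA ≤ S / (8 * C) := by
      have h1 : ρA ≤ rA := by
        rw [hρA]
        apply div_le_self hrA0.le
        linarith
      have h2 : S / (16 * C) ≤ S / (8 * C) := by
        apply div_le_div_of_nonneg_left hR0.le (by positivity)
        linarith
      linarith
    have haA : ‖a‖ ≤ ρA / 64 := by
      rw [← hn2'] at hn2
      have h1 : ‖a‖ * (10 ^ 12 * n2) ≤ 5 * 10 ^ 9 * n2 * ρA := haS.trans hρAlow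
      have h2 : n2 * (‖a‖ * 10 ^ 12) ≤ n2 * (5 * 10 ^ 9 * ρA) := by linarith
      have h3 := le_of_mul_le_mul_left h2 (by linarith)
      linarith
    have hlc := hBLC F (tau (B 2 c p q) G m') a (A 2 c p) rA L ρA hrA0 hL0 hAp (hFd.mono hsubA)
      (fun w hw => ⟨(hF w (hsubA hw)).1, by
        have h1 := hA w (by
          rw [← hrA]
          exact ball_subset_closedBall hw)
        refine h1.trans ?_
        rw [hL, Real.exp_add]
        apply mul_le_mul_of_nonneg_left _ (Real.exp_pos _).le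
        have := Real.add_one_le_exp (1 : ℝ)
        linarith⟩) hFa (fun w hw hne => (hF w (hsubA hw)).2.2 hne) hρA haA
    have hsy := hBSY C 2 c p q G E hC hR hT hX hDf her hE hE0 m' hm' (A 2 c p)⁻¹ (-1) ρA
      (1 / (‖A 2 c p‖ * ρA)) (by norm_num) hρA0 (by rw [← hS]; exact hρAle) (by positivity)
      (fun w hw1 hw2 => ⟨hlc w hw1 hw2, by
        rw [norm_mul, norm_inv, zpow_neg_one, norm_inv, ← mul_inv, ← one_div]
        have hw0 : 0 < ‖w‖ := by linarith
        apply one_div_le_one_div_of_le (by positivity)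
        exact mul_le_mul_of_nonneg_left hw2.le hAp0.le⟩)
    have hsy' : ρA / ‖A 2 c p‖ ≤ 2 * E := by
      have e : 1 / (‖A 2 c p‖ * ρA) * ρA ^ 2 = ρA / ‖A 2 c p‖ := by
        field_simp
      rwa [e] at hsy
    calc sg C 2 c p q * ρ ^ 4 ≤ S / ‖A 2 c p‖ * ρ :=
          mul_le_mul hsgle hρ3 (by positivity) (by positivity)
      _ = (ρ * S) / ‖A 2 c p‖ := by ring
      _ ≤ (5 * 10 ^ 9 * n2 * ρA) / ‖A 2 c p‖ := div_le_div_of_nonneg_right hρAlow hAp0.le
      _ = 5 * 10 ^ 9 * n2 * (ρA / ‖A 2 c p‖) := by ring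
      _ ≤ 5 * 10 ^ 9 * n2 * (2 * E) := by
          apply mul_le_mul_of_nonneg_left hsy'
          rw [hn2']
          positivity
      _ ≤ 10 ^ 16 * E * (N : ℝ) ^ 4 := by
          rw [hn2']
          have h1 : E * (N : ℝ) ^ 2 ≤ E * (N : ℝ) ^ 4 := mul_le_mul_of_nonneg_left hn4 hE0
          have h2 : 0 ≤ E * (N : ℝ) ^ 4 := mul_nonneg hE0 (by positivity)
          have e1 : 5 * 10 ^ 9 * (N : ℝ) ^ 2 * (2 * E) = 10 ^ 10 * (E * (N : ℝ) ^ 2) := by ring
          have e2 : 10 ^ 16 * E * (N : ℝ) ^ 4 = 10 ^ 16 * (E * (N : ℝ) ^ 4) := by ring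
          rw [e1, e2]
          linarith
  · -- case B
    obtain ⟨s, hs⟩ : ∃ s : ℝ, s = r / (409600 * n2) := ⟨_, rfl⟩
    have hn21 : 1 ≤ n2 := by rw [hn2']; exact hn2
    have hs0 : 0 < s := by rw [hs]; positivity
    have hs2 : r / (819200 * (N : ℝ) ^ 2) = s / 2 := by
      rw [hs, ← hn2']
      field_simp
      norm_num
    rw [hs2] at hτ hw
    have hsr : s ≤ r / 409600 := by
      rw [hs]
      apply div_le_div_of_nonneg_left hr0.le (by norm_num)
      linarith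
    have haS' : ‖a‖ ≤ ρ * S / 10 ^ 12 := by
      rw [le_div_iff₀ (by norm_num)]
      refine le_trans ?_ haS
      exact mul_le_mul_of_nonneg_left (by linarith only [hn21]) (norm_nonneg a)
    have hb : ∀ z ∈ ball w₀ s, 69 / 100 * r ≤ ‖z - a‖ ∧ ‖z - a‖ < r ∧ ρ / 2 * S < ‖z‖ ∧
        ‖z‖ < ρ * S := by
      intro z hz
      rw [mem_ball, dist_eq_norm] at hz
      have h1 : ‖z - a‖ ≤ ‖z - w₀‖ + ‖w₀ - a‖ := by
        have := norm_add_le (z - w₀) (w₀ - a)
        rwa [sub_add_sub_cancel] at this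
      have h2 : ‖w₀ - a‖ ≤ ‖z - w₀‖ + ‖z - a‖ := by
        have := norm_sub_le (z - a) (z - w₀)
        rw [sub_sub_sub_cancel_left] at this
        linarith
      have h3 : ‖z‖ ≤ ‖z - a‖ + ‖a‖ := by
        have := norm_add_le (z - a) a
        rwa [sub_add_cancel] at this
      have h4 : ‖z - a‖ ≤ ‖z‖ + ‖a‖ := norm_sub_le _ _
      rw [hr] at hsr hw1 hw2 ⊢
      refine ⟨by linarith, by linarith, by linarith, by linarith⟩
    have hsub2 : ball w₀ s ⊆ ball 0 (S / (8 * C)) := by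
      intro z hz
      rw [mem_ball_zero_iff]
      have h1 := (hb z hz).2.2.2
      have h2 : S / (16 * C) ≤ S / (8 * C) := by
        apply div_le_div_of_nonneg_left hR0.le (by positivity)
        linarith
      linarith
    obtain ⟨t, ht⟩ : ∃ t : ℝ, t = sg C 2 c p q / S ^ 2 := ⟨_, rfl⟩
    have ht0 : 0 < t := by rw [ht]; positivity
    have htle : t ≤ 1 / 2 / (‖A 2 c p‖ * S) := by
      rw [ht, hsg]
      rw [div_div, div_div, div_le_div_iff₀ (by positivity) (by positivity)]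
      have h1 : 1 ≤ C ^ 2 := by nlinarith only [hC1]
      have h2 : 0 < ‖A 2 c p‖ * S ^ 2 := by positivity
      have h3 := mul_nonneg h2.le (show (0 : ℝ) ≤ C ^ 2 - 1 by linarith only [h1])
      nlinarith only [h2, h3]
    have htau : ∀ z ∈ ball w₀ s, tau (B 2 c p q) G m' z = F z / (A 2 c p * (z - a)) := by
      intro z hz
      obtain ⟨h1, h2, _, _⟩ := hb z hz
      have hza : z ≠ a := by
        intro h0
        rw [h0, sub_self, norm_zero] at h1
        linarith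
      have hza' : z - a ≠ 0 := sub_ne_zero.2 hza
      have h3 := (hF z (by
        rw [mem_ball, dist_eq_norm]
        linarith)).2.2 hza
      rw [h3]
      field_simp
    have hpt : ∀ z ∈ ball w₀ (s / 2), t / 8 ≤
        (‖tau (B 2 c p q) G m z‖ + ‖tau (B 2 c p q) G m' z‖ -
          ‖tau (B 2 c p q) G m z + tau (B 2 c p q) G m' z‖) +
        (‖tau (B 2 c p q) G m (z + τ)‖ + ‖tau (B 2 c p q) G m' (z + τ)‖ -
          ‖tau (B 2 c p q) G m (z + τ) + tau (B 2 c p q) G m' (z + τ)‖) := by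
      intro z hz
      have hz1 : z ∈ ball w₀ s := ball_subset_ball (by linarith) hz
      have hz2 : z + τ ∈ ball w₀ s := by
        rw [mem_ball, dist_eq_norm] at hz ⊢
        have h1 : ‖z + τ - w₀‖ ≤ ‖z - w₀‖ + ‖τ‖ := by
          have := norm_add_le (z - w₀) τ
          rwa [show z - w₀ + τ = z + τ - w₀ by ring] at this
        linarith
      obtain ⟨h1, h2, h3, h4⟩ := hb z hz1
      obtain ⟨k1, k2, k3, k4⟩ := hb (z + τ) hz2
      obtain ⟨f1, f2⟩ := hw z hz
      have hza : z - a ≠ 0 := by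
        intro h0
        rw [h0, norm_zero] at h1
        linarith
      have hza2 : z - a + τ ≠ 0 := by
        intro h0
        have e : z + τ - a = 0 := by rw [← h0]; ring
        rw [e, norm_zero] at k1
        linarith
      have hFz : F z ≠ 0 := by
        intro h0
        rw [h0, norm_zero] at f1
        linarith
      apply hBPA t ν _ _ _ _ ht0 (by rw [ht]; exact hν) (hτν z h3 h4) (hτν (z + τ) k3 k4)
      · rw [htau z hz1]
        refine htle.trans ?_
        rw [norm_div, norm_mul]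
        have h5 : ‖z - a‖ ≤ S := by
          have h6 : S / (16 * C) ≤ S := div_le_self hR0.le (by linarith)
          linarith
        have h6 : 0 < ‖z - a‖ := norm_pos_iff.2 hza
        calc 1 / 2 / (‖A 2 c p‖ * S) ≤ 1 / 2 / (‖A 2 c p‖ * ‖z - a‖) := by
              apply div_le_div_of_nonneg_left (by norm_num) (by positivity)
              exact mul_le_mul_of_nonneg_left h5 hAp0.le
          _ ≤ ‖F z‖ / (‖A 2 c p‖ * ‖z - a‖) := div_le_div_of_nonneg_right f1 (by positivity)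
      · rw [htau z hz1, htau (z + τ) hz2]
        have e : z + τ - a = z - a + τ := by ring
        rw [e]
        apply hBRQ (A 2 c p) (F z) (F (z + τ)) (z - a) τ hAp hFz f2 hza hza2
        rw [← e]
        linarith
    have hSC : S / (8 * C) ≤ R 2 c q := by
      rw [← hS]
      exact div_le_self hR0.le (by linarith)
    have hmeas : AEMeasurable (fun z => ‖tau (B 2 c p q) G m z‖ + ‖tau (B 2 c p q) G m' z‖ -
        ‖tau (B 2 c p q) G m z + tau (B 2 c p q) G m' z‖) (volume.restrict (ball w₀ s)) := by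
      have h1 := (BAB_aem 2 c p q G (S / (8 * C)) hBm hT hSC m hm).mono_set hsub2
      have h2 := (BAB_aem 2 c p q G (S / (8 * C)) hBm hT hSC m' hm').mono_set hsub2
      exact (h1.norm.add h2.norm).sub (h1.add h2).norm
    have hint : ∫⁻ z in ball w₀ s, ENNReal.ofReal (‖tau (B 2 c p q) G m z‖ +
        ‖tau (B 2 c p q) G m' z‖ - ‖tau (B 2 c p q) G m z + tau (B 2 c p q) G m' z‖) ≤
        ENNReal.ofReal (2 * E) := by
      refine (lintegral_mono_set hsub2).trans ?_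
      rw [ENNReal.ofReal_mul (by norm_num), show ENNReal.ofReal 2 = 2 by norm_num]
      have := hCHP C 2 c p q G E hC hR hT hX hDf her hE m hm m' hm'
      rw [← hS] at this
      exact this
    have hfin := hBCS _ w₀ τ s (t / 8) (2 * E) hs0 (by positivity) (by positivity) hτ hmeas hpt hint
    have e1 : t / 8 * s ^ 2 = sg C 2 c p q * ρ ^ 2 * ((49 / 50) ^ 2 / (8 * 409600 ^ 2 * (N : ℝ) ^ 4)) := by
      rw [ht, hs, hr, hn2']
      field_simp
    rw [e1] at hfin
    have hN4 : 0 < (N : ℝ) ^ 4 := by positivity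
    rw [← mul_div_assoc, div_le_iff₀ (by positivity)] at hfin
    have h5 : sg C 2 c p q * ρ ^ 4 ≤ sg C 2 c p q * ρ ^ 2 :=
      mul_le_mul_of_nonneg_left hρ2 hsg0.le
    have h6 : 0 ≤ E * (N : ℝ) ^ 4 := by positivity
    nlinarith

end GR
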